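import Pool.Agent.Run7.h550.SMM.Main

/-!
# Stable multi-matchings on the line can percolate although there are odd degrees

For every `p` with `0 < p < 1` there is a distribution `μ` on the positive integers which gives mass
`p` to the odd integers, such that the stable multi-matching of the Poisson process on the line
with i.i.d. degrees of law `μ` has an infinite component, almost surely. So the characterisation
of percolation in Q1 (even degrees only) is false.

The distribution `μ` of the proof is a mixture of `δ₁` and of a heavy-tailed distribution on even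
integers.
-/

set_option autoImplicit false

namespace Pool.Agent.Results.MP_32afb7_pr.OddDegreesPercolate

open MeasureTheory ProbabilityTheory
open scoped ENNReal
open Pool.Agent.Helper712_LP (E)
open Run7.h550.SMM (MarkedPoisson Percolates)

/-- `G` is a stable multi-matching of the points `y 0, y 1, …` of the line `ℝ^1` with degrees
`D 0, D 1, …`: every `i` has degree exactly `D i`, and of two distinct points which are not joined
by an edge at least one has no edge longer than their distance. -/
structure IsStableMultiMatching (y : ℕ → E 1) (D : ℕ → ℕ) (G : SimpleGraph ℕ) : Prop where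
  degree : ∀ i, (G.neighborSet i).encard = (D i : ℕ∞)
  stable : ∀ i j, i ≠ j → ¬ G.Adj i j →
    (¬ ∃ k, G.Adj i k ∧ dist (y i) (y j) < dist (y i) (y k)) ∨
      (¬ ∃ k, G.Adj j k ∧ dist (y i) (y j) < dist (y j) (y k))

theorem result (p : ℝ≥0∞) (hp0 : 0 < p) (hp1 : p < 1) :
    ∃ μ : Measure ℕ, IsProbabilityMeasure μ ∧ μ {0} = 0 ∧ μ {n | Odd n} = p ∧
      (∃ (Ω : Type) (_ : MeasurableSpace Ω) (P : Measure Ω) (_ : IsProbabilityMeasure P)
        (x : ℕ → Ω → E 1) (D : ℕ → Ω → ℕ), MarkedPoisson P μ x D) ∧
      ∀ (Ω : Type) [MeasurableSpace Ω] (P : Measure Ω) [IsProbabilityMeasure P]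
        (x : ℕ → Ω → E 1) (D : ℕ → Ω → ℕ), MarkedPoisson P μ x D →
          ∀ᵐ ω ∂P, (∃ G, IsStableMultiMatching (fun i => x i ω) (fun i => D i ω) G) ∧
            ∀ G, IsStableMultiMatching (fun i => x i ω) (fun i => D i ω) G → Percolates G := by
  have hprob := Run7.h550.SMM.isProb_mix hp1.le
  have hodd : Run7.h550.SMM.nu {n | Odd n} = 0 := by
    rw [Run7.h550.SMM.nu_apply]
    simp only [ENNReal.tsum_eq_zero, mul_eq_zero]
    intro j
    right
    rw [Set.indicator_of_notMem]
    simp only [Set.mem_ofPred_eq, Nat.not_odd_iff_even]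
    exact even_iff_two_dvd.2 (Nat.prime_two.dvd_factorial.2 (by omega : 2 ≤ j + 2))
  have hzero : Run7.h550.SMM.nu {0} = 0 :=
    measure_mono_null (fun n hn => by
      rw [Set.mem_singleton_iff] at hn
      subst hn
      simp) Run7.h550.SMM.nu_small
  refine ⟨Run7.h550.SMM.mix p, hprob, ?_, ?_, Run7.h550.SMM.exists_marked le_rfl _, ?_⟩
  · simp [Run7.h550.SMM.mix, hzero]
  · simp [Run7.h550.SMM.mix, hodd]
  · intro Ω _ P _ x D hx
    filter_upwards [Run7.h550.SMM.ae_percolates le_rfl hp1 hx] with ω hω
    obtain ⟨⟨G, hG⟩, h2⟩ := hω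
    refine ⟨⟨G, (h2 G hG).1, fun i j hij hna => ?_⟩, fun G' hG' => (h2 G' ⟨?_, ?_⟩).2⟩
    · by_contra hcon
      rw [not_or, not_not, not_not] at hcon
      refine hG.stable i j hij hna ⟨Or.inr hcon.1, Or.inr ?_⟩
      obtain ⟨k, hk1, hk2⟩ := hcon.2
      exact ⟨k, hk1, by rwa [dist_comm (x j ω) (x i ω)]⟩
    · intro i
      exact (hG'.degree i).le
    · rintro i j hij hna ⟨hw1, hw2⟩
      rcases hG'.stable i j hij hna with h | h
      · rcases hw1 with hw | hw
        · rw [hG'.degree i] at hw
          exact lt_irrefl _ hw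
        · exact h hw
      · rcases hw2 with hw | ⟨k, hk1, hk2⟩
        · rw [hG'.degree j] at hw
          exact lt_irrefl _ hw
        · exact h ⟨k, hk1, by rwa [dist_comm (x j ω) (x i ω)] at hk2⟩

end Pool.Agent.Results.MP_32afb7_pr.OddDegreesPercolate
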